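import Mathlib
import Pool.Agent.Y582.OP.Core

set_option autoImplicit false

/-!
# The relation `(2 ^ p)⁺ → (p⁺ + ξ, p⁺ + η)²`; under GCH `ω₃ → (ω₂ + ξ, ω₂ + η)²` for all
`ξ < ω₂` and all `η < ω₁`
-/

open Set Cardinal Ordinal

namespace Pool.Agent.Results.MP_cc6734_lc.AllBelow

open Pool.Agent.Results.MP_cc6734_lc.OmegaThree Pool.Agent.Y582.OP

theorem card_le_of_lt {p : Cardinal.{0}} {ξ : Ordinal.{0}} (h : ξ < (Order.succ p).ord) :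
    ξ.card ≤ p :=
  Order.lt_succ_iff.1 (lt_ord.1 h)

theorem zfc (p : Cardinal.{0}) (hp : ℵ₀ ≤ p) (ξ η : Ordinal.{0}) (hξ : ξ < (Order.succ p).ord)
    (hη : p ^ η.card ≤ p) :
    Arrow (Order.succ (2 ^ p : Cardinal.{0})).ord ((Order.succ p).ord + ξ) ((Order.succ p).ord + η) := by
  refine arrow p (2 ^ p) hp ?_ (Order.succ_le_of_lt (cantor p)) ξ η (card_le_of_lt hξ) hη
  rw [← power_mul, mul_eq_self hp]

theorem omega_three (h0 : (2 : Cardinal.{0}) ^ ℵ₀ = ℵ_ 1)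
    (h1 : (2 : Cardinal.{0}) ^ ℵ_ 1 = ℵ_ 2) (ξ η : Ordinal.{0})
    (hξ : ξ < ω_ 2) (hη : η < ω_ 1) : Arrow (ω_ 3) (ω_ 2 + ξ) (ω_ 2 + η) := by
  have s12 : Order.succ (ℵ_ 1) = ℵ_ 2 := by
    rw [succ_aleph]
    norm_num
  have e2 : ω_ 2 = (Order.succ (ℵ_ 1)).ord := by
    rw [s12, ord_aleph]
  have e3 : ω_ 3 = (Order.succ (2 ^ ℵ_ 1 : Cardinal.{0})).ord := by
    rw [h1, succ_aleph, ord_aleph]
    norm_num
  have hη0 : η.card ≤ ℵ₀ := by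
    have h2 : η < (Order.succ ℵ₀).ord := by
      rwa [succ_aleph0, ord_aleph]
    exact card_le_of_lt h2
  rw [e2] at hξ
  rw [e3, e2]
  refine zfc (ℵ_ 1) (aleph0_le_aleph _) ξ η hξ ?_
  refine (power_le_power_left (aleph_pos 1).ne' hη0).trans ?_
  rw [← h0, ← power_mul, mul_eq_self le_rfl]

/-- The relation `α → (β, γ)²` is `Arrow α β γ`.

* (ZFC) For every infinite cardinal `p`, every ordinal `ξ < p⁺` and every ordinal `η` with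
  `p ^ |η| = p` (for instance every finite `η`), `(2 ^ p)⁺ → (p⁺ + ξ, p⁺ + η)²`. More generally
  `q⁺ → (p⁺ + ξ, p⁺ + η)²` for every cardinal `q > p` with `q ^ p = q`.
* If `2 ^ ℵ₀ = ℵ₁` and `2 ^ ℵ₁ = ℵ₂` then `ω₃ → (ω₂ + ξ, ω₂ + η)²` for all `ξ < ω₂` and all
  `η < ω₁`.
* The positive answer to Q1: GCH implies `ω₃ → (ω₂ + ω₁, ω₂ + ω)²`. -/
theorem result :
    (∀ p : Cardinal.{0}, ℵ₀ ≤ p → ∀ ξ η : Ordinal.{0}, ξ < (Order.succ p).ord →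
      p ^ η.card ≤ p →
      Arrow (Order.succ (2 ^ p : Cardinal.{0})).ord ((Order.succ p).ord + ξ) ((Order.succ p).ord + η) ∧
      ∀ q : Cardinal.{0}, p < q → q ^ p ≤ q →
        Arrow (Order.succ q).ord ((Order.succ p).ord + ξ) ((Order.succ p).ord + η)) ∧
    ((2 : Cardinal.{0}) ^ ℵ₀ = ℵ_ 1 → (2 : Cardinal.{0}) ^ ℵ_ 1 = ℵ_ 2 →
      ∀ ξ < ω_ 2, ∀ η < ω_ 1, Arrow (ω_ 3) (ω_ 2 + ξ) (ω_ 2 + η)) ∧
    ((∀ κ : Cardinal.{0}, ℵ₀ ≤ κ → 2 ^ κ = Order.succ κ) →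
      Arrow (ω_ 3) (ω_ 2 + ω_ 1) (ω_ 2 + ω)) := by
  refine ⟨fun p hp ξ η hξ hη => ⟨zfc p hp ξ η hξ hη, fun q hq hqp =>
    arrow p q hp hqp (Order.succ_le_of_lt hq) ξ η (card_le_of_lt hξ) hη⟩,
    fun h0 h1 ξ hξ η hη => omega_three h0 h1 ξ η hξ hη, fun gch => ?_⟩
  refine omega_three ?_ ?_ _ _ ?_ ?_
  · rw [gch ℵ₀ le_rfl, succ_aleph0]
  · rw [gch _ (aleph0_le_aleph 1), succ_aleph]
    norm_num
  · exact omega_lt_omega.2 (by norm_num)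
  · rw [← omega_zero]
    exact omega_lt_omega.2 (by norm_num)

end Pool.Agent.Results.MP_cc6734_lc.AllBelow
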